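import Pool.Agent.P.MP_a3f7df_an.Main

open scoped ENNReal BoundedContinuousFunction
open Pool.Agent.P.MP_a3f7df_an

namespace Pool.Agent.Results.MP_a3f7df_an.PIndependence

/-- The Fredholm character of a Toeplitz operator with almost periodic matrix symbol on
`(H^p_-)^n` is the same for all `1 < p < ∞`. -/
theorem result (n : ℕ) (G : Fin n → Fin n → ℝ →ᵇ ℂ) (hG : ∀ i j, IsAP (G i j))
    (p₁ p₂ : ℝ≥0∞) [Fact (1 ≤ p₁)] [Fact (1 ≤ p₂)]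
    (h₁ : 1 < p₁) (h₁' : p₁ ≠ ∞) (h₂ : 1 < p₂) (h₂' : p₂ ≠ ∞) :
    (LeftFredholm (toeplitz G p₁ h₁ h₁') ↔ LeftFredholm (toeplitz G p₂ h₂ h₂')) ∧
    (RightFredholm (toeplitz G p₁ h₁ h₁') ↔ RightFredholm (toeplitz G p₂ h₂ h₂')) :=
  ⟨⟨fun h => leftFredholm_of (left_transfer hG h₁ h₁' h₂ h₂' h).1
      (left_transfer hG h₁ h₁' h₂ h₂' h).2,
    fun h => leftFredholm_of (left_transfer hG h₂ h₂' h₁ h₁' h).1
      (left_transfer hG h₂ h₂' h₁ h₁' h).2⟩,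
   ⟨fun h => rightFredholm_of (right_transfer hG h₁ h₁' h₂ h₂' h),
    fun h => rightFredholm_of (right_transfer hG h₂ h₂' h₁ h₁' h)⟩⟩

end Pool.Agent.Results.MP_a3f7df_an.PIndependence
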